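import Pool.Agent.LCK.Stmts

/-!
MP_e0fe99_lc, squad LCK, row ADJ (helper81): two links with a common vertex.
-/

set_option autoImplicit false

open Topology

namespace Pool.Agent.LCK.H81

open Pool.Agent.LCK

theorem adj : ADJStmt := by
  intro a b c ha hc
  have hp : a - b ≠ 0 := sub_ne_zero.2 ha
  have hq : c - b ≠ 0 := sub_ne_zero.2 hc
  have hpn : 0 < ‖a - b‖ := norm_pos_iff.2 hp
  have hqn : 0 < ‖c - b‖ := norm_pos_iff.2 hq
  constructor
  · intro h
    refine lt_of_le_of_ne (real_inner_le_norm _ _) fun heq => ?_
    rw [inner_eq_norm_mul_iff_real] at heq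
    set s : ℝ := ‖a - b‖ + ‖c - b‖ with hs
    have hspos : 0 < s := by positivity
    have hz1 : b + (‖c - b‖ / s) • (a - b) ∈ segment ℝ a b := by
      refine ⟨‖c - b‖ / s, 1 - ‖c - b‖ / s, by positivity, ?_, by ring, by module⟩
      rw [sub_nonneg, div_le_one hspos]; linarith
    have hz2 : b + (‖c - b‖ / s) • (a - b) ∈ segment ℝ b c := by
      have he : (‖c - b‖ / s) • (a - b) = (‖a - b‖ / s) • (c - b) := by
        rw [div_eq_inv_mul, div_eq_inv_mul, mul_smul, mul_smul, heq]
      rw [he]
      refine ⟨1 - ‖a - b‖ / s, ‖a - b‖ / s, ?_, by positivity, by ring, by module⟩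
      rw [sub_nonneg, div_le_one hspos]; linarith
    have hz : b + (‖c - b‖ / s) • (a - b) ∈ ({b} : Set E3) := by
      rw [← h]; exact ⟨hz1, hz2⟩
    have h0 : (‖c - b‖ / s) • (a - b) = 0 := by
      have : b + (‖c - b‖ / s) • (a - b) = b := hz
      simpa using this
    rcases smul_eq_zero.1 h0 with h1 | h1
    · have : 0 < ‖c - b‖ / s := by positivity
      linarith
    · exact hp h1
  · intro h
    apply Set.Subset.antisymm
    · rintro z ⟨⟨u, v, hu, hv, huv, rfl⟩, ⟨u', v', hu', hv', huv', hz⟩⟩
      have h1 : u • (a - b) = v' • (c - b) := by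
        have e1 : u • a + v • b = b + u • (a - b) := by
          have : v = 1 - u := by linarith
          rw [this]; module
        have e2 : u' • b + v' • c = b + v' • (c - b) := by
          have : u' = 1 - v' := by linarith
          rw [this]; module
        rw [e1, e2] at hz
        exact (add_left_cancel hz).symm
      rcases hu.eq_or_lt with h0 | h0
      · have : v = 1 := by linarith
        rw [Set.mem_singleton_iff, ← h0, this]; simp
      · exfalso
        have hv'pos : 0 < v' := by
          rcases hv'.eq_or_lt with h2 | h2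
          · rw [← h2, zero_smul] at h1
            rcases smul_eq_zero.1 h1 with h3 | h3
            · linarith
            · exact absurd h3 hp
          · exact h2
        have h3 : a - b = (v' / u) • (c - b) := by
          rw [div_eq_inv_mul, mul_smul, ← h1, smul_smul, inv_mul_cancel₀ h0.ne', one_smul]
        have h4 : (0 : ℝ) < v' / u := by positivity
        rw [h3, inner_smul_left, norm_smul, real_inner_self_eq_norm_sq, Real.norm_eq_abs,
          abs_of_pos h4] at h
        simp only [conj_trivial] at h
        nlinarith
    · rintro z hz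
      rw [Set.mem_singleton_iff] at hz
      rw [hz]
      exact ⟨right_mem_segment ℝ a b, left_mem_segment ℝ b c⟩

end Pool.Agent.LCK.H81
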