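import Pool.Agent.LCK.Stmts

/-!
MP_e0fe99_lc, squad LCK, row PTH (helper81): transport of a short last link along a path.
-/

set_option autoImplicit false

open Topology

namespace Pool.Agent.LCK.H81

open Pool.Agent.LCK

/-- the last vertex is not on the links which are not adjacent to it -/
theorem last_not_mem {m : ℕ} {l : Fin (m + 1) → ℝ} (hl : ∀ k, 0 < l k) {v : Fin (m + 2) → E3}
    (hv : v ∈ Conf l) (i : Fin m) :
    v (Fin.last (m + 1)) ∉ segment ℝ (v i.castSucc.castSucc) (v i.castSucc.succ) := by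
  intro hmem
  obtain ⟨hd, hs⟩ := hv
  have hlt : i.castSucc < Fin.last m := Fin.castSucc_lt_last i
  have h1 := hs i.castSucc (Fin.last m) hlt
  have h2 : v (Fin.last (m + 1)) ∈ segment ℝ (v (Fin.last m).castSucc) (v (Fin.last m).succ) := by
    rw [Fin.succ_last]; exact right_mem_segment ℝ _ _
  have h3 : v (Fin.last (m + 1)) ∈
      segment ℝ (v i.castSucc.castSucc) (v i.castSucc.succ) ∩
      segment ℝ (v (Fin.last m).castSucc) (v (Fin.last m).succ) := ⟨hmem, h2⟩
  rw [h1] at h3
  split_ifs at h3 with hj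
  · have h4 : v (Fin.last (m + 1)) = v i.castSucc.succ := h3
    have h5 : i.castSucc.succ = (Fin.last m).castSucc := by
      apply Fin.ext
      simp only [Fin.val_succ, Fin.val_castSucc, Fin.val_last] at hj ⊢
      omega
    have h6 := hd (Fin.last m)
    rw [Fin.succ_last, h4, h5, dist_self] at h6
    exact absurd h6.symm (hl _).ne'
  · exact h3

theorem pth (snc : SNCStmt) (fib : FIBStmt) : PTHStmt := by
  intro m l hl c c' hj
  obtain ⟨s1, -, s3, -⟩ := snc (m + 1)
  -- a uniform lower bound
  have hδ : ∀ i : Fin m, ∃ δ : ℝ, 0 < δ ∧ ∀ s : unitInterval,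
      ∀ z ∈ segment ℝ (hj.somePath s i.castSucc.castSucc) (hj.somePath s i.castSucc.succ),
        δ ≤ dist (hj.somePath s (Fin.last (m + 1))) z := by
    intro i
    have hc1 : ∀ k : Fin (m + 2), Continuous fun z : unitInterval × unitInterval =>
        hj.somePath z.1 k := fun k =>
      (continuous_apply k).comp (hj.somePath.continuous.comp continuous_fst)
    have hu : Continuous fun z : unitInterval × unitInterval => ((z.2 : ℝ)) :=
      continuous_subtype_val.comp continuous_snd
    have hcont : Continuous fun z : unitInterval × unitInterval =>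
        dist (hj.somePath z.1 (Fin.last (m + 1)))
          ((1 - (z.2 : ℝ)) • hj.somePath z.1 i.castSucc.castSucc +
            (z.2 : ℝ) • hj.somePath z.1 i.castSucc.succ) :=
      (hc1 _).dist (((continuous_const.sub hu).smul (hc1 _)).add (hu.smul (hc1 _)))
    obtain ⟨z0, -, hz0⟩ := isCompact_univ.exists_isMinOn (Set.univ_nonempty) hcont.continuousOn
    refine ⟨dist (hj.somePath z0.1 (Fin.last (m + 1)))
          ((1 - (z0.2 : ℝ)) • hj.somePath z0.1 i.castSucc.castSucc +
            (z0.2 : ℝ) • hj.somePath z0.1 i.castSucc.succ), ?_, ?_⟩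
    rotate_left
    · intro s z hz
      obtain ⟨u, v, hu0, hv0, huv, rfl⟩ := hz
      have hv1 : v ∈ unitInterval := ⟨hv0, by linarith⟩
      have h7 := hz0 (Set.mem_univ ((s, ⟨v, hv1⟩) : unitInterval × unitInterval))
      simp only [Set.mem_ofPred_eq] at h7
      have hu1 : u = 1 - v := by linarith
      rw [hu1]
      exact h7
    · rw [dist_pos]
      intro heq
      refine last_not_mem hl (hj.somePath_mem z0.1) i ?_
      rw [heq]
      exact ⟨1 - (z0.2 : ℝ), z0.2, by linarith [z0.2.2.2], z0.2.2.1, by ring, rfl⟩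
  choose δf hδ0 hδ1 using hδ
  have hex : ∃ δ : ℝ, 0 < δ ∧ ∀ i, δ < δf i := by
    have h1 : ∀ᶠ δ in 𝓝[>] (0 : ℝ), ∀ i, δ < δf i := by
      rw [Filter.eventually_all]
      intro i
      filter_upwards [Ioo_mem_nhdsGT (hδ0 i)] with δ hδ using hδ.2
    obtain ⟨δ, h2, h3⟩ := (h1.and self_mem_nhdsWithin).exists
    exact ⟨δ, h3, h2⟩
  obtain ⟨δ, hδpos, hδlt⟩ := hex
  refine ⟨δ, hδpos, fun ε hε hεδ x x' hx hx' => ?_⟩
  have hfar : ∀ s : unitInterval, ∀ i : Fin m,
      ∀ z ∈ segment ℝ (hj.somePath s i.castSucc.castSucc) (hj.somePath s i.castSucc.succ),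
        ε < dist (hj.somePath s (Fin.last (m + 1))) z := fun s i z hz =>
    (hεδ.trans (hδlt i)).trans_le (hδ1 i s z hz)
  have hfib : ∀ s : unitInterval, _ := fun s =>
    fib m l hl (hj.somePath s) (hj.somePath_mem s) ε hε (hfar s)
  set X : (Fin (m + 2) → E3) → E3 := fun v =>
    v (Fin.last (m + 1)) + (ε / l (Fin.last m)) •
      (v (Fin.last (m + 1)) - v (Fin.last m).castSucc) with hX
  have hXc : Continuous X := by
    have h1 : Continuous fun v : Fin (m + 2) → E3 => v (Fin.last (m + 1)) := continuous_apply _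
    have h2 : Continuous fun v : Fin (m + 2) → E3 => v (Fin.last m).castSucc := continuous_apply _
    have h3 : Continuous fun v : Fin (m + 2) → E3 =>
        v (Fin.last (m + 1)) - v (Fin.last m).castSucc := h1.sub h2
    have h4 : Continuous fun v : Fin (m + 2) → E3 =>
        (ε / l (Fin.last m)) • (v (Fin.last (m + 1)) - v (Fin.last m).castSucc) :=
      h3.const_smul (ε / l (Fin.last m))
    exact h1.add h4
  have hXd : ∀ s : unitInterval, dist (hj.somePath s (Fin.last (m + 1))) (X (hj.somePath s)) = ε := by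
    intro s
    have h1 := (hj.somePath_mem s).1 (Fin.last m)
    rw [Fin.succ_last, dist_comm, dist_eq_norm] at h1
    rw [hX]
    simp only [dist_self_add_right, norm_smul, Real.norm_eq_abs]
    rw [h1, abs_of_pos (div_pos hε (hl _)), div_mul_cancel₀ _ (hl _).ne']
  have hXm : ∀ s : unitInterval, av (hj.somePath s) (X (hj.somePath s)) ∈ Conf (ap l ε) := fun s =>
    (s1 l ε _ _).2 ⟨hj.somePath_mem s, hXd s, (hfib s).2⟩
  -- the three pieces
  set fibre : (Fin (m + 2) → E3) → Set E3 := fun v =>
    {x : E3 | dist (v (Fin.last (m + 1))) x = ε ∧ Ok v x} with hfibre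
  have hpre : ∀ s : unitInterval,
      IsPreconnected (av (hj.somePath s) '' fibre (hj.somePath s)) := fun s =>
    (hfib s).1.image _ ((s3.comp (Continuous.prodMk continuous_const continuous_id)).continuousOn)
  have hsub : ∀ s : unitInterval, av (hj.somePath s) '' fibre (hj.somePath s) ⊆ Conf (ap l ε) := by
    rintro s _ ⟨y, hy, rfl⟩
    exact (s1 l ε _ _).2 ⟨hj.somePath_mem s, hy.1, hy.2⟩
  have hpath : IsPreconnected (Set.range fun s : unitInterval =>
      av (hj.somePath s) (X (hj.somePath s))) := by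
    refine isPreconnected_range ?_
    exact s3.comp (hj.somePath.continuous.prodMk (hXc.comp hj.somePath.continuous))
  have hin : ∀ s : unitInterval, av (hj.somePath s) (X (hj.somePath s)) ∈
      av (hj.somePath s) '' fibre (hj.somePath s) := fun s =>
    ⟨_, ⟨hXd s, (hfib s).2⟩, rfl⟩
  have h0 : hj.somePath 0 = c := hj.somePath.source
  have h1 : hj.somePath 1 = c' := hj.somePath.target
  refine ⟨(av (hj.somePath 0) '' fibre (hj.somePath 0) ∪
      Set.range fun s : unitInterval => av (hj.somePath s) (X (hj.somePath s))) ∪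
      av (hj.somePath 1) '' fibre (hj.somePath 1), ?_, ?_, ?_, ?_⟩
  · rintro y ((hy | ⟨s, rfl⟩) | hy)
    · exact hsub 0 hy
    · exact hXm s
    · exact hsub 1 hy
  · refine IsPreconnected.union' ?_ (IsPreconnected.union' ?_ (hpre 0) hpath) (hpre 1)
    · exact ⟨_, Or.inr ⟨1, rfl⟩, hin 1⟩
    · exact ⟨_, hin 0, ⟨0, rfl⟩⟩
  · left; left
    rw [h0]
    have := (s1 l ε c x).1 hx
    exact ⟨x, ⟨this.2.1, this.2.2⟩, rfl⟩
  · right
    rw [h1]
    have := (s1 l ε c' x').1 hx'
    exact ⟨x', ⟨this.2.1, this.2.2⟩, rfl⟩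

end Pool.Agent.LCK.H81
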